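import Pool.Agent.Y492.AL.Stm
import Pool.Agent.H973R3.NC.NP

/-!
# Project AL, part CS: near pairs of edges with frozen open edges
-/

set_option autoImplicit false

namespace Pool.Agent.Y574.AL

open H974 H12S H973N Finset
open H973N.NP (RE_weak RE_strong tl div_spec tb dst_le mem_tb ball_sub_tb dst_self cn_mono L4_congr'
  Off_sub indep_L4 Bf_local card_near card_tile)
open Pool.Agent.Y492.AL

theorem CO_mono {I J : Set Vtx} {O : Set Edg} {F G : Finset Edg} (h : F ⊆ G) (hF : CO I J O F) :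
    CO I J O G :=
  cn_mono (Set.union_subset_union_left O (Finset.coe_subset.2 h)) hF

/-- second difference implies block pivotality -/
theorem SD_Bf {I J : Set Vtx} {O : Set Edg} {e g : Edg} {b F : Finset Edg} (he : e ∈ b)
    (hg : g ∈ b) (h : SD (CO I J O) e g F) : Bf (CO I J O) b F := by
  obtain ⟨_, _, h3, h4⟩ := h
  refine ⟨CO_mono ?_ h3, fun h5 => h4 (CO_mono ?_ h5)⟩
  · intro x hx
    rw [Finset.mem_insert, Finset.mem_insert] at hx
    rw [Finset.mem_union]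
    rcases hx with rfl | rfl | hx
    · exact Or.inr he
    · exact Or.inr hg
    · exact Or.inl hx
  · intro x hx
    rw [Finset.mem_sdiff] at hx
    rw [Finset.mem_erase, Finset.mem_erase]
    exact ⟨fun h => hx.2 (h ▸ hg), fun h => hx.2 (h ▸ he), hx.1⟩

/-- a pivotal edge, with another edge outside the ball changed -/
theorem SD_L4_aux {I J : Set Vtx} {O : Set Edg} {ρ : ℕ} (hρ : 1 ≤ ρ) {e g : Edg} {F : Finset Edg}
    (hO : ∀ g ∈ O, g ∉ blk (bp e) ρ)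
    (hI : Off (e.1 - ρ) (e.1 + ρ) (e.2.1 - ρ) (e.2.1 + ρ) I J) (hg : g ∉ blk (bp e) ρ)
    (h : Pf (CO I J O) e (F.erase g) ∨ Pf (CO I J O) e (insert g F)) :
    L4 ρ e ↑F := by
  rcases h with h | h
  · have h1 := piv_L4 hρ hO hI h
    refine (L4_congr' ?_).1 h1
    intro x hx _
    rw [Finset.mem_erase]
    constructor
    · exact fun h => h.2
    · exact fun h => ⟨fun h' => hg (h' ▸ hx), h⟩
  · have h1 := piv_L4 hρ hO hI h
    refine (L4_congr' ?_).1 h1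
    intro x hx _
    rw [Finset.mem_insert]
    constructor
    · rintro (h | h)
      · exact absurd hx (h ▸ hg)
      · exact h
    · exact fun h => Or.inr h

theorem blk_sub {x y : ℤ × ℤ} {ρ σ : ℕ} (h1 : y.1 - σ ≤ x.1 - ρ) (h2 : x.1 + ρ ≤ y.1 + σ)
    (h3 : y.2 - σ ≤ x.2 - ρ) (h4 : x.2 + ρ ≤ y.2 + σ) : blk x ρ ⊆ blk y σ := by
  unfold blk
  exact RE_subset h1 h2 h3 h4

/-- the bound for a pair of edges -/
theorem pair_bound {q : ℝ} (h0 : 0 ≤ q) (h1 : q ≤ 1) {S : Finset Edg} {I J : Set Vtx}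
    {O : Set Edg} (hO : Disjoint O ↑S) {ρ : ℕ} (hρ : 1 ≤ ρ) {e g : Edg}
    (hS : blk (bp e) (24 * ρ) ⊆ S)
    (hIJ : Off (e.1 - 24 * ρ) (e.1 + 24 * ρ) (e.2.1 - 24 * ρ) (e.2.1 + 24 * ρ) I J)
    (h4 : dst e g ≤ 4 * ρ) (h2 : 2 * (ρ : ℤ) < dst e g) :
    PQ q S (SD (CO I J O) e g) ≤ (a4 q ρ) ^ 2 * PQ q S (Bf (CO I J O) (tb ρ (tl ρ e))) := by
  have hOk : Ok (fun _ : Edg => q) := fun _ => ⟨h0, h1⟩
  have hρ' : (1 : ℤ) ≤ ρ := by exact_mod_cast hρ
  obtain ⟨⟨k1, k2⟩, k3, k4⟩ := dst_le h4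
  have hee : dst e e ≤ 4 * ρ := by rw [dst_self]; positivity
  have hbe : blk (bp e) ρ ⊆ S := by
    refine Finset.Subset.trans (blk_sub ?_ ?_ ?_ ?_) hS <;> unfold bp <;> push_cast <;> linarith
  have hbg : blk (bp g) ρ ⊆ S := by
    refine Finset.Subset.trans (blk_sub ?_ ?_ ?_ ?_) hS <;> unfold bp <;> simp only <;>
      push_cast <;> linarith
  have hOS : ∀ x ∈ O, x ∉ S := fun x hx hxS => Set.disjoint_left.1 hO hx (Finset.mem_coe.2 hxS)
  have hge : ∀ x ∈ blk (bp g) ρ, x ∉ blk (bp e) ρ := by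
    intro x hx hx'
    unfold blk bp at hx hx'
    obtain ⟨⟨p1, p2⟩, p3, p4⟩ := RE_weak hx
    obtain ⟨⟨r1, r2⟩, r3, r4⟩ := RE_weak hx'
    simp only at p1 p2 p3 p4 r1 r2 r3 r4
    have : dst e g ≤ 2 * ρ := by
      unfold dst
      apply max_le <;> rw [abs_le] <;> constructor <;> linarith
    linarith
  have hball : ∀ x : Edg, x ∈ blk (bp x) ρ := by
    intro x
    unfold blk bp
    apply RE_strong
    refine ⟨⟨?_, ?_⟩, ?_, ?_⟩ <;> simp only <;> linarith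
  have hg1 : g ∉ blk (bp e) ρ := hge g (hball g)
  have he1 : e ∉ blk (bp g) ρ := fun h => hge e h (hball e)
  have hOe : Off (e.1 - ρ) (e.1 + ρ) (e.2.1 - ρ) (e.2.1 + ρ) I J :=
    Off_sub hIJ (by linarith) (by linarith) (by linarith) (by linarith)
  have hOg : Off (g.1 - ρ) (g.1 + ρ) (g.2.1 - ρ) (g.2.1 + ρ) I J :=
    Off_sub hIJ (by linarith) (by linarith) (by linarith) (by linarith)
  have step1 : PQ q S (SD (CO I J O) e g) ≤
      PQ q S (fun F => L4 ρ e ↑F ∧ (L4 ρ g ↑F ∧ Bf (CO I J O) (tb ρ (tl ρ e)) F)) := by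
    refine Pr_mono hOk ?_
    intro F _ hF
    exact ⟨SD_L4_aux hρ (fun x hx hx' => hOS x hx (hbe hx')) hOe hg1 hF.1,
      SD_L4_aux hρ (fun x hx hx' => hOS x hx (hbg hx')) hOg he1 hF.2.1,
      SD_Bf (mem_tb hρ hee) (mem_tb hρ h4) hF⟩
  refine step1.trans ?_
  have hBl : ∀ (x : Edg), dst e x ≤ 4 * ρ → ∀ F, F ⊆ S →
      (Bf (CO I J O) (tb ρ (tl ρ e)) F ↔
        Bf (CO I J O) (tb ρ (tl ρ e)) (F ∩ (S \ blk (bp x) ρ))) :=
    fun x hx F hF => Bf_local (ball_sub_tb hρ hx) F hF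
  refine (indep_L4 h0 h1 hbe ?_).trans ?_
  · intro F hF
    rw [← hBl e hee F hF]
    apply and_congr_left
    intro _
    apply L4_congr'
    intro x hx _
    rw [Finset.mem_inter, Finset.mem_sdiff]
    exact ⟨fun h => ⟨h, hF h, hge x hx⟩, fun h => h.1⟩
  · have ha : 0 ≤ a4 q ρ := (Pr_nonneg hOk _ _).trans (pr_L4 h0 h1 hbe)
    rw [sq, mul_assoc]
    exact mul_le_mul_of_nonneg_left (indep_L4 h0 h1 hbg (hBl g h4)) ha

/-- number of tiles -/
theorem card_tiles (ρ : ℕ) (hρ : 1 ≤ ρ) (M : ℕ) (hM : 1 ≤ M) (x0 : ℤ × ℤ) (G : Finset Edg)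
    (hG : ∀ e ∈ G, |e.1 - x0.1| ≤ M * ρ ∧ |e.2.1 - x0.2| ≤ M * ρ) :
    Real.sqrt ((G.image (tl ρ)).card : ℝ) ≤ 3 * (M : ℝ) := by
  set t1 : ℤ := (x0.1 + ρ) / (2 * ρ : ℕ) with ht1
  set t2 : ℤ := (x0.2 + ρ) / (2 * ρ : ℕ) with ht2
  have h1 : G.image (tl ρ) ⊆ (Finset.Icc (t1 - M) (t1 + M)) ×ˢ (Finset.Icc (t2 - M) (t2 + M)) := by
    intro t ht
    rw [Finset.mem_image] at ht
    obtain ⟨e, he, rfl⟩ := ht
    have d1 := div_spec hρ e.1
    have d2 := div_spec hρ e.2.1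
    have c1 := div_spec hρ x0.1
    have c2 := div_spec hρ x0.2
    rw [← ht1] at c1
    rw [← ht2] at c2
    have hb := hG e he
    rw [abs_le, abs_le] at hb
    have hρ' : (1 : ℤ) ≤ ρ := by exact_mod_cast hρ
    have hM' : (1 : ℤ) ≤ M := by exact_mod_cast hM
    rw [Finset.mem_product, Finset.mem_Icc, Finset.mem_Icc]
    unfold tl
    simp only
    generalize (e.1 + (ρ : ℤ)) / ((2 * ρ : ℕ) : ℤ) = u at d1 ⊢
    generalize (e.2.1 + (ρ : ℤ)) / ((2 * ρ : ℕ) : ℤ) = v at d2 ⊢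
    clear_value t1 t2
    push_cast at d1 d2 c1 c2
    have key : ∀ x x' y y' : ℤ, 2 * (ρ : ℤ) * y ≤ x + ρ → x < 2 * (ρ : ℤ) * y + ρ →
        2 * (ρ : ℤ) * y' ≤ x' + ρ → x' < 2 * (ρ : ℤ) * y' + ρ → -(M * ρ : ℤ) ≤ x - x' →
        x - x' ≤ M * ρ → y' - (M : ℤ) ≤ y ∧ y ≤ y' + M := by
      intro x x' y y' q1 q2 q3 q4 q5 q6
      constructor
      · by_contra hcon
        push Not at hcon
        have : 2 * (ρ : ℤ) * y ≤ 2 * ρ * (y' - M - 1) :=
          mul_le_mul_of_nonneg_left (by linarith) (by linarith)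
        nlinarith
      · by_contra hcon
        push Not at hcon
        have : 2 * (ρ : ℤ) * (y' + M + 1) ≤ 2 * ρ * y :=
          mul_le_mul_of_nonneg_left (by linarith) (by linarith)
        nlinarith
    exact ⟨key _ _ _ _ d1.1 d1.2 c1.1 c1.2 hb.1.1 hb.1.2,
      key _ _ _ _ d2.1 d2.2 c2.1 c2.2 hb.2.1 hb.2.2⟩
  have h2 := Finset.card_le_card h1
  rw [Finset.card_product, Int.card_Icc, Int.card_Icc] at h2
  have e1 : ∀ z : ℤ, (z + (M : ℤ) + 1 - (z - (M : ℤ))).toNat = 2 * M + 1 := by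
    intro z
    rw [show z + (M : ℤ) + 1 - (z - (M : ℤ)) = ((2 * M + 1 : ℕ) : ℤ) by push_cast; ring]
    exact Int.toNat_natCast _
  rw [e1, e1] at h2
  have h3 : (2 * M + 1) * (2 * M + 1) ≤ (3 * M) ^ 2 := by nlinarith
  have h4 : ((G.image (tl ρ)).card : ℝ) ≤ (3 * (M : ℝ)) ^ 2 := by exact_mod_cast h2.trans h3
  rw [Real.sqrt_le_left (by positivity)]
  exact h4

/-- one class of pairs -/
theorem class_sum {κ : ℝ} {q : ℝ} {n : ℕ} (hW : Win q κ n) {S : Finset Edg} {I J : Set Vtx}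
    {O : Set Edg} (hO : Disjoint O ↑S) {k j Λ : ℕ} (hk : k ≤ j) (hΛ : 1 ≤ Λ)
    (hn : 12 * 2 ^ k ≤ n) (x0 : ℤ × ℤ) {G : Finset Edg}
    (hG : ∀ e ∈ G, |e.1 - x0.1| ≤ Λ * 2 ^ j ∧ |e.2.1 - x0.2| ≤ Λ * 2 ^ j)
    (hG' : ∀ e ∈ G, blk (bp e) (24 * 2 ^ k) ⊆ S ∧
      Off (e.1 - 24 * 2 ^ k) (e.1 + 24 * 2 ^ k) (e.2.1 - 24 * 2 ^ k) (e.2.1 + 24 * 2 ^ k) I J)
    (P : Edg → Edg → Prop)
    (hP : ∀ e g, P e g → dst e g ≤ 4 * ((2 ^ k : ℕ) : ℤ)) {A : ℝ} (hA : 0 ≤ A)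
    (hb : ∀ e ∈ G, ∀ g, P e g → PQ q S (SD (CO I J O) e g) ≤
      A * PQ q S (Bf (CO I J O) (tb (2 ^ k) (tl (2 ^ k) e)))) :
    ∑ e ∈ G, ∑ g ∈ S.erase e, ind (P e g) * PQ q S (SD (CO I J O) e g) ≤
      162 * 18 * 722 * 3 * κ⁻¹ ^ 4 * Λ * ((16 : ℝ) ^ k * A * 2 ^ (j - k)) := by
  classical
  have h0 : 0 ≤ q := by linarith [hW.lo]
  have h1 : q ≤ 1 := by linarith [hW.hi]
  have hOk : Ok (fun _ : Edg => q) := fun _ => ⟨h0, h1⟩
  have hG2 : ∀ e ∈ G, blk (bp e) (24 * 2 ^ k) ⊆ S ∧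
      Off (e.1 - 24 * ((2 ^ k : ℕ) : ℤ)) (e.1 + 24 * ((2 ^ k : ℕ) : ℤ))
        (e.2.1 - 24 * ((2 ^ k : ℕ) : ℤ)) (e.2.1 + 24 * ((2 ^ k : ℕ) : ℤ)) I J := by
    intro e he
    have := hG' e he
    push_cast
    exact this
  set ρ : ℕ := 2 ^ k with hρdef
  have hρ : 1 ≤ ρ := Nat.one_le_two_pow
  have hρ1z : (1 : ℤ) ≤ ρ := by exact_mod_cast hρ
  set B : ℤ × ℤ → ℝ := fun t => PQ q S (Bf (CO I J O) (tb ρ t)) with hB
  have hB0 : ∀ t, 0 ≤ B t := fun t => Pr_nonneg hOk _ _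
  -- inner sums
  have inner : ∀ e ∈ G, ∑ g ∈ S.erase e, ind (P e g) * PQ q S (SD (CO I J O) e g) ≤
      162 * (ρ : ℝ) ^ 2 * (A * B (tl ρ e)) := by
    intro e he
    have hAB : 0 ≤ A * B (tl ρ e) := mul_nonneg hA (hB0 _)
    calc ∑ g ∈ S.erase e, ind (P e g) * PQ q S (SD (CO I J O) e g)
        ≤ ∑ g ∈ S.erase e, if dst e g ≤ 4 * ρ then A * B (tl ρ e) else 0 := by
          refine Finset.sum_le_sum fun g _ => ?_
          by_cases hp : P e g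
          · rw [ind_of hp, one_mul, if_pos (hP e g hp)]
            exact hb e he g hp
          · rw [ind_not_of hp, zero_mul]
            split_ifs
            · exact hAB
            · exact le_rfl
      _ = ((S.erase e).filter (fun g => dst e g ≤ 4 * ρ)).card * (A * B (tl ρ e)) := by
          rw [← Finset.sum_filter, Finset.sum_const, nsmul_eq_mul]
      _ ≤ 162 * (ρ : ℝ) ^ 2 * (A * B (tl ρ e)) :=
          mul_le_mul_of_nonneg_right (card_near e ρ hρ _) hAB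
  set T : Finset (ℤ × ℤ) := G.image (tl ρ) with hT
  have tile : ∑ t ∈ T, B t ≤ 2 * (19 : ℕ) ^ 2 * κ⁻¹ ^ 4 * Real.sqrt T.card := by
    have hTs := tile_sum hW (S := S) (I := I) (J := J) (O := O)
      hO (s := 2 * ρ) (R := 6 * ρ) (K := 19) (by omega) (by omega)
      (by omega) (by norm_num) (by omega) T ?_ ?_
    · exact hTs
    · intro t ht
      rw [hT, Finset.mem_image] at ht
      obtain ⟨e, he, rfl⟩ := ht
      have d1 := div_spec hρ e.1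
      have d2 := div_spec hρ e.2.1
      refine Finset.Subset.trans (blk_sub ?_ ?_ ?_ ?_) (hG2 e he).1 <;> unfold bp tl <;>
        push_cast at d1 d2 ⊢ <;> linarith
    · intro t ht
      rw [hT, Finset.mem_image] at ht
      obtain ⟨e, he, rfl⟩ := ht
      have d1 := div_spec hρ e.1
      have d2 := div_spec hρ e.2.1
      unfold tl
      apply Off_sub (hG2 e he).2 <;> push_cast at d1 d2 ⊢ <;> linarith
  have hfib : ∑ e ∈ G, 162 * (ρ : ℝ) ^ 2 * (A * B (tl ρ e)) ≤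
      162 * (ρ : ℝ) ^ 2 * A * (18 * (ρ : ℝ) ^ 2 * ∑ t ∈ T, B t) := by
    have h2 : ∑ e ∈ G, 162 * (ρ : ℝ) ^ 2 * (A * B (tl ρ e)) =
        162 * (ρ : ℝ) ^ 2 * A * ∑ e ∈ G, B (tl ρ e) := by
      rw [Finset.mul_sum]
      refine Finset.sum_congr rfl fun e _ => ?_
      ring
    rw [h2]
    apply mul_le_mul_of_nonneg_left _ (by positivity)
    have h3 : ∑ e ∈ G, B (tl ρ e) = ∑ t ∈ T, ∑ e ∈ G.filter (fun e => tl ρ e = t), B (tl ρ e) :=
      (Finset.sum_fiberwise_of_maps_to (fun e he => Finset.mem_image_of_mem _ he) _).symm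
    rw [h3, Finset.mul_sum]
    refine Finset.sum_le_sum fun t _ => ?_
    have h4 : ∑ e ∈ G.filter (fun e => tl ρ e = t), B (tl ρ e) =
        (G.filter (fun e => tl ρ e = t)).card * B t := by
      rw [← nsmul_eq_mul, ← Finset.sum_const]
      refine Finset.sum_congr rfl fun e he => ?_
      rw [(Finset.mem_filter.mp he).2]
    rw [h4]
    exact mul_le_mul_of_nonneg_right (card_tile ρ hρ G t) (hB0 t)
  have hsq : Real.sqrt (T.card : ℝ) ≤ 3 * ((Λ * 2 ^ (j - k) : ℕ) : ℝ) := by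
    apply card_tiles ρ hρ (Λ * 2 ^ (j - k)) (Nat.mul_pos hΛ (Nat.two_pow_pos _)) x0 G
    intro e he
    have h5 : (((Λ * 2 ^ (j - k) : ℕ) : ℤ) * (ρ : ℤ)) = Λ * 2 ^ j := by
      have h6 : (2 : ℤ) ^ j = 2 ^ (j - k) * 2 ^ k := by
        rw [← pow_add]
        congr 1
        omega
      rw [h6, hρdef]
      push_cast
      ring
    rw [h5]
    exact hG e he
  have hκ : 0 ≤ κ⁻¹ ^ 4 := by
    have := hW.kpos
    positivity
  calc ∑ e ∈ G, ∑ g ∈ S.erase e, ind (P e g) * PQ q S (SD (CO I J O) e g)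
      ≤ ∑ e ∈ G, 162 * (ρ : ℝ) ^ 2 * (A * B (tl ρ e)) := Finset.sum_le_sum inner
    _ ≤ 162 * (ρ : ℝ) ^ 2 * A * (18 * (ρ : ℝ) ^ 2 * ∑ t ∈ T, B t) := hfib
    _ ≤ 162 * (ρ : ℝ) ^ 2 * A * (18 * (ρ : ℝ) ^ 2 * (2 * (19 : ℕ) ^ 2 * κ⁻¹ ^ 4 *
          (3 * ((Λ * 2 ^ (j - k) : ℕ) : ℝ)))) := by
        apply mul_le_mul_of_nonneg_left _ (by positivity)
        apply mul_le_mul_of_nonneg_left _ (by positivity)
        refine tile.trans ?_
        apply mul_le_mul_of_nonneg_left hsq (by positivity)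
    _ = 162 * 18 * 722 * 3 * κ⁻¹ ^ 4 * Λ * ((16 : ℝ) ^ k * A * 2 ^ (j - k)) := by
        have h7 : (ρ : ℝ) ^ 2 * (ρ : ℝ) ^ 2 = 16 ^ k := by
          rw [← pow_add, hρdef]
          push_cast
          rw [← pow_mul, mul_comm k, pow_mul]
          norm_num
        push_cast
        linear_combination (162 * 18 * (2 * 19 ^ 2 * κ⁻¹ ^ 4 * (3 * (Λ * 2 ^ (j - k)))) * A) * h7

/-- **Part CS** -/
theorem cs : S_CS := by
  intro κ hκ
  refine ⟨162 * 18 * 722 * 3 * κ⁻¹ ^ 4, by positivity, ?_⟩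
  intro q n hW S I J O hO k j Λ hk hΛ hn x0 G hG hG'
  have h0 : 0 ≤ q := by linarith [hW.lo]
  have h1 : q ≤ 1 := by linarith [hW.hi]
  have hOk : Ok (fun _ : Edg => q) := fun _ => ⟨h0, h1⟩
  constructor
  · refine class_sum hW hO hk hΛ hn x0 hG hG' (fun e g => 2 * (2 : ℤ) ^ k < dst e g ∧
      dst e g ≤ 4 * 2 ^ k) ?_ (sq_nonneg _) ?_
    · intro e g h
      push_cast
      exact h.2
    · intro e he g hg
      have h2 := (hG' e he).2
      refine pair_bound h0 h1 hO Nat.one_le_two_pow (hG' e he).1 ?_ ?_ ?_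
      · push_cast
        exact h2
      · push_cast
        exact hg.2
      · push_cast
        exact hg.1
  · intro hk0
    subst hk0
    have h2 : ∑ e ∈ G, ∑ g ∈ S.erase e, ind (dst e g ≤ 2) * PQ q S (SD (CO I J O) e g) ≤
        162 * 18 * 722 * 3 * κ⁻¹ ^ 4 * Λ * ((16 : ℝ) ^ 0 * 1 * 2 ^ (j - 0)) := by
      refine class_sum hW hO hk hΛ hn x0 hG hG' (fun e g => dst e g ≤ 2) ?_ zero_le_one ?_
      · intro e g h
        norm_num
        linarith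
      · intro e he g hg
        rw [one_mul]
        refine Pr_mono hOk ?_
        intro F _ hF
        have hg4 : dst e g ≤ 4 * ((2 ^ 0 : ℕ) : ℤ) := by
          norm_num
          linarith
        have hee : dst e e ≤ 4 * ((2 ^ 0 : ℕ) : ℤ) := by rw [dst_self]; norm_num
        exact SD_Bf (mem_tb (by norm_num) hee) (mem_tb (by norm_num) hg4) hF
    simpa using h2

end Pool.Agent.Y574.AL
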